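import Pool.Agent.Helper70.SUB.SheetW

/-!
Project SUBW, row SUBTU: the Subspace theorem over `M` along an ultrafilter.
-/

set_option autoImplicit false

namespace Pool.Agent.Helper70.SUBW

open Filter Finset Matrix Pool.Agent.Helper70.SUB Pool.Agent.Helper77.SUBK

theorem countM (M : Type) [Field M] [NumberField M] : Countable M :=
  (Module.finBasis ℚ M).equivFun.injective.countable

/-- the version for `Fin n` -/
theorem subtuF (hSUB : ST_SUBTK) (hDEN : ST_DEN) (hAV : ST_AV)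
    (M : Type) [Field M] [NumberField M] [IsGalois ℚ M] (S : Finset ℕ)
    (P : PF S M) (n : ℕ) (L : Option ℕ → (M ≃ₐ[ℚ] M) → Matrix (Fin n) (Fin n) M) (ε A : ℝ)
    (φ : Ultrafilter ℕ) (Q : ℕ → ℝ) (y : ℕ → Fin n → M) (hn : 1 ≤ n) (hS : ∀ p ∈ S, p.Prime)
    (hdet : ∀ v ∈ plc S, ∀ σ, (L v σ).det ≠ 0) (hCon : Con P L) (hε : 0 < ε)
    (hQ : Tendsto Q (φ : Filter ℕ) atTop)
    (hD : ∀ ε' : ℝ, 0 < ε' → ∀ᶠ j in (φ : Filter ℕ), ∃ D : ℕ, D ≠ 0 ∧ (D : ℝ) ≤ Q j ^ ε' ∧
      ∀ i, SI S ((D : M) * y j i))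
    (hsz : ∀ᶠ j in (φ : Filter ℕ), ∀ v ∈ plc S, ∀ (σ : M ≃ₐ[ℚ] M) (i : Fin n),
      P.nv v (σ (y j i)) ≤ Q j ^ A)
    (hprod : ∀ᶠ j in (φ : Filter ℕ),
      ∏ v ∈ plc S, ∏ σ : M ≃ₐ[ℚ] M, ∏ i, P.nv v (σ ((L v σ).mulVec (y j) i)) ≤ Q j ^ (-ε)) :
    ∃ a : Fin n → M, a ≠ 0 ∧ ∀ᶠ j in (φ : Filter ℕ), ∑ i, a i * y j i = 0 := by
  classical
  by_contra hno
  have hne : ∀ a : Fin n → M, a ≠ 0 → ∀ᶠ j in (φ : Filter ℕ), ∑ i, a i * y j i ≠ 0 := by
    intro a ha
    have h1 : ¬ ∀ᶠ j in (φ : Filter ℕ), ∑ i, a i * y j i = 0 := fun h => hno ⟨a, ha, h⟩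
    exact Ultrafilter.eventually_not.2 h1
  -- enumeration of the nonzero vectors
  have : Countable M := countM M
  have : Nonempty {a : Fin n → M // a ≠ 0} := by
    refine ⟨⟨fun _ => 1, fun h => ?_⟩⟩
    have := congrFun h (⟨0, by omega⟩ : Fin n)
    simp at this
  obtain ⟨f, hf⟩ := exists_surjective_nat {a : Fin n → M // a ≠ 0}
  set g : ℕ := Fintype.card (M ≃ₐ[ℚ] M) with hg
  set ε' : ℝ := ε / (4 * ((n : ℝ) * g + 1)) with hε'
  have hng : (0 : ℝ) ≤ (n : ℝ) * g := by positivity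
  have hε'0 : 0 < ε' := by positivity
  set A' : ℝ := max A 0 with hA'
  have hA'0 : 0 ≤ A' := le_max_right _ _
  set c0 : ℝ := ∏ p ∈ S, (p : ℝ) with hc0
  have hE : ∀ k : ℕ, ∀ᶠ j in (φ : Filter ℕ),
      ((∃ D : ℕ, D ≠ 0 ∧ (D : ℝ) ≤ Q j ^ ε' ∧ ∀ i, SI S ((D : M) * y j i)) ∧
      (∀ v ∈ plc S, ∀ (σ : M ≃ₐ[ℚ] M) (i : Fin n), P.nv v (σ (y j i)) ≤ Q j ^ A) ∧
      (∏ v ∈ plc S, ∏ σ : M ≃ₐ[ℚ] M, ∏ i, P.nv v (σ ((L v σ).mulVec (y j) i)) ≤ Q j ^ (-ε)) ∧
      1 ≤ Q j ∧ c0 ≤ Q j) ∧ (k : ℝ) ≤ Q j ∧ ∀ i ∈ Finset.range (k + 1), ∑ l, (f i).1 l * y j l ≠ 0 := by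
    intro k
    have h1 : ∀ᶠ j in (φ : Filter ℕ), ∀ i ∈ Finset.range (k + 1), ∑ l, (f i).1 l * y j l ≠ 0 := by
      rw [Filter.eventually_all_finset]
      intro i _
      exact hne _ (f i).2
    filter_upwards [hD ε' hε'0, hsz, hprod, hQ.eventually_ge_atTop 1, hQ.eventually_ge_atTop c0,
      hQ.eventually_ge_atTop (k : ℝ), h1] with j a1 a2 a3 a4 a5 a6 a7
    exact ⟨⟨a1, a2, a3, a4, a5⟩, a6, a7⟩
  choose s hs using fun k => (hE k).exists
  set M1 : Set ℕ := Set.range s with hM1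
  have hgood : ∀ j ∈ M1, (∃ D : ℕ, D ≠ 0 ∧ (D : ℝ) ≤ Q j ^ ε' ∧ ∀ i, SI S ((D : M) * y j i)) ∧
      (∀ v ∈ plc S, ∀ (σ : M ≃ₐ[ℚ] M) (i : Fin n), P.nv v (σ (y j i)) ≤ Q j ^ A) ∧
      (∏ v ∈ plc S, ∏ σ : M ≃ₐ[ℚ] M, ∏ i, P.nv v (σ ((L v σ).mulVec (y j) i)) ≤ Q j ^ (-ε)) ∧
      1 ≤ Q j ∧ c0 ≤ Q j := by
    rintro j ⟨k, rfl⟩
    exact (hs k).1
  have hfin : ∀ B : ℝ, {j | j ∈ M1 ∧ Q j ≤ B}.Finite := by
    intro B
    obtain ⟨N, hN⟩ := exists_nat_gt B
    refine ((Finset.range N).finite_toSet.image s).subset ?_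
    rintro j ⟨⟨k, rfl⟩, hB⟩
    refine ⟨k, ?_, rfl⟩
    have h1 : (k : ℝ) ≤ Q (s k) := (hs k).2.1
    have h2 : (k : ℝ) < N := by linarith
    have h3 : k < N := by exact_mod_cast h2
    simpa using h3
  have hinf : M1.Infinite := by
    intro hfin1
    have h1 : BddAbove (Q '' M1) := (hfin1.image Q).bddAbove
    obtain ⟨B, hB⟩ := h1
    obtain ⟨N, hN⟩ := exists_nat_gt B
    have h2 := hB ⟨s N, ⟨N, rfl⟩, rfl⟩
    have h3 := (hs N).2.1
    linarith
  -- the denominators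
  have hex : ∀ j, ∃ D : ℕ, j ∈ M1 → D ≠ 0 ∧ (D : ℝ) ≤ Q j ^ ε' ∧ ∀ i, SI S ((D : M) * y j i) := by
    intro j
    by_cases hj : j ∈ M1
    · obtain ⟨D, h⟩ := (hgood j hj).1
      exact ⟨D, fun _ => h⟩
    · exact ⟨0, fun h => absurd h hj⟩
  choose D hDj using hex
  have hnvD : ∀ j, ∀ v ∈ plc S, P.nv v (D j : M) = av v (D j : ℚ) := fun j v hv => P.natCast hv _
  have hnvDn : ∀ j, P.nv none (D j : M) = (D j : ℝ) := by
    intro j
    rw [hnvD j none mem_none]
    simp [av]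
  have hnvDp : ∀ j, ∀ p ∈ S, P.nv (some p) (D j : M) ≤ 1 := by
    intro j p hp
    have h1 := P.int_le hAV hS hp (D j : ℤ)
    simpa using h1
  obtain ⟨hden, -⟩ := hDEN M S P hS
  set A'' : ℝ := max (ε' + A') (1 + A' * S.card) + 1 with hA''
  have hA''0 : 0 < A'' := by
    have : 0 ≤ ε' + A' := by linarith
    have h2 := le_max_left (ε' + A') (1 + A' * S.card)
    linarith
  have hmul : ∀ (j : ℕ) (v : Option ℕ) (σ : M ≃ₐ[ℚ] M) (i : Fin n),
      (L v σ).mulVec (fun k => (D j : M) * y j k) i = (D j : M) * (L v σ).mulVec (y j) i := by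
    intro j v σ i
    simp only [Matrix.mulVec, dotProduct]
    rw [Finset.mul_sum]
    exact Finset.sum_congr rfl fun k _ => by ring
  obtain ⟨a, ha, hainf⟩ := hSUB M S P n L (ε / 2) A'' M1 Q (fun j k => (D j : M) * y j k) hn hS hdet
    hCon (by linarith) hA''0 hinf hfin (by
      intro j hj
      obtain ⟨-, hsz1, hprod1, hQ1, hc1⟩ := hgood j hj
      obtain ⟨hD0, hDle, hDSI⟩ := hDj j hj
      have hQ0 : 0 < Q j := by linarith
      have hD1 : (1 : ℝ) ≤ D j := by
        have : 1 ≤ D j := Nat.one_le_iff_ne_zero.2 hD0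
        exact_mod_cast this
      refine ⟨hQ1, ?_, ?_, ?_⟩
      · obtain ⟨m, hm1, hm2, hm3⟩ := hden (Q j ^ A') (Real.one_le_rpow hQ1 hA'0)
        refine ⟨m, hm1, ?_, fun i => hm3 _ (hDSI i) ?_⟩
        · have h1 : (Q j ^ A') ^ S.card = Q j ^ (A' * S.card) := by
            rw [← Real.rpow_natCast, ← Real.rpow_mul hQ0.le]
          rw [h1] at hm2
          calc (m : ℝ) ≤ c0 * Q j ^ (A' * S.card) := hm2
            _ ≤ Q j * Q j ^ (A' * S.card) :=
                mul_le_mul_of_nonneg_right hc1 (Real.rpow_nonneg hQ0.le _)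
            _ = Q j ^ (1 + A' * S.card) := by rw [Real.rpow_add hQ0, Real.rpow_one]
            _ ≤ Q j ^ A'' := Real.rpow_le_rpow_of_exponent_le hQ1 (by
                have := le_max_right (ε' + A') (1 + A' * S.card)
                linarith)
        · intro p hp σ
          rw [map_mul, map_natCast, P.mul _ (mem_some hp)]
          calc P.nv (some p) (D j : M) * P.nv (some p) (σ (y j i))
              ≤ 1 * P.nv (some p) (σ (y j i)) :=
                mul_le_mul_of_nonneg_right (hnvDp j p hp) (P.nn _ _)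
            _ = P.nv (some p) (σ (y j i)) := one_mul _
            _ ≤ Q j ^ A := hsz1 _ (mem_some hp) σ i
            _ ≤ Q j ^ A' := Real.rpow_le_rpow_of_exponent_le hQ1 (le_max_left _ _)
      · intro σ i
        rw [map_mul, map_natCast, P.mul _ mem_none, hnvDn]
        calc (D j : ℝ) * P.nv none (σ (y j i)) ≤ Q j ^ ε' * Q j ^ A' := by
              apply mul_le_mul hDle _ (P.nn _ _) (Real.rpow_nonneg hQ0.le _)
              exact (hsz1 _ mem_none σ i).trans
                (Real.rpow_le_rpow_of_exponent_le hQ1 (le_max_left _ _))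
          _ = Q j ^ (ε' + A') := by rw [Real.rpow_add hQ0]
          _ ≤ Q j ^ A'' := Real.rpow_le_rpow_of_exponent_le hQ1 (by
              have := le_max_left (ε' + A') (1 + A' * S.card)
              linarith)
      · have h1 : ∏ v ∈ plc S, ∏ σ : M ≃ₐ[ℚ] M, ∏ i,
            P.nv v (σ ((L v σ).mulVec (fun k => (D j : M) * y j k) i))
            = (∏ v ∈ plc S, (P.nv v (D j : M) ^ n) ^ g) *
              ∏ v ∈ plc S, ∏ σ : M ≃ₐ[ℚ] M, ∏ i, P.nv v (σ ((L v σ).mulVec (y j) i)) := by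
          rw [← Finset.prod_mul_distrib]
          refine Finset.prod_congr rfl fun v hv => ?_
          have h2 : ∀ (σ : M ≃ₐ[ℚ] M) (i : Fin n),
              P.nv v (σ ((L v σ).mulVec (fun k => (D j : M) * y j k) i))
              = P.nv v (D j : M) * P.nv v (σ ((L v σ).mulVec (y j) i)) := by
            intro σ i
            rw [hmul, map_mul, map_natCast, P.mul v hv]
          simp only [h2, Finset.prod_mul_distrib, Finset.prod_const, Finset.card_univ,
            Fintype.card_fin, hg]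
        rw [h1]
        have h3 : ∏ v ∈ plc S, (P.nv v (D j : M) ^ n) ^ g ≤ Q j ^ (ε' * (n * g)) := by
          have h4 : ∏ v ∈ plc S, (P.nv v (D j : M) ^ n) ^ g ≤ ((D j : ℝ) ^ n) ^ g := by
            have h5 : ∀ v ∈ plc S, (P.nv v (D j : M) ^ n) ^ g
                ≤ if v = none then ((D j : ℝ) ^ n) ^ g else 1 := by
              intro v hv
              cases v with
              | none => rw [if_pos rfl, hnvDn]
              | some p =>
                rw [if_neg (by simp)]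
                exact pow_le_one₀ (pow_nonneg (P.nn _ _) _)
                  (pow_le_one₀ (P.nn _ _) (hnvDp j p (of_mem_some hv)))
            refine (Finset.prod_le_prod (fun v _ => pow_nonneg (pow_nonneg (P.nn _ _) _) _)
              h5).trans ?_
            rw [Finset.prod_ite_eq' (plc S) none, if_pos mem_none]
          refine h4.trans ?_
          rw [← pow_mul, Real.rpow_mul hQ0.le, ← Nat.cast_mul, Real.rpow_natCast]
          exact pow_le_pow_left₀ (by linarith) hDle _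
        have hP0 : 0 ≤ ∏ v ∈ plc S, ∏ σ : M ≃ₐ[ℚ] M, ∏ i,
            P.nv v (σ ((L v σ).mulVec (y j) i)) :=
          Finset.prod_nonneg fun v _ => Finset.prod_nonneg fun σ _ =>
            Finset.prod_nonneg fun i _ => P.nn _ _
        calc _ ≤ Q j ^ (ε' * (n * g)) * Q j ^ (-ε) :=
              mul_le_mul h3 hprod1 hP0 (Real.rpow_nonneg hQ0.le _)
          _ = Q j ^ (ε' * (n * g) + -ε) := by rw [Real.rpow_add hQ0]
          _ ≤ Q j ^ (-(ε / 2)) := Real.rpow_le_rpow_of_exponent_le hQ1 (by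
              have h6 : ε' * ((n : ℝ) * g) ≤ ε / 4 := by
                rw [hε', div_mul_eq_mul_div, div_le_div_iff₀ (by positivity) (by norm_num)]
                nlinarith
              linarith))
  -- contradiction
  obtain ⟨k0, hk0⟩ := hf ⟨a, ha⟩
  have h1 : ({j | j ∈ M1 ∧ ∑ k, a k * ((D j : M) * y j k) = 0} \
      (s '' (Finset.range k0 : Set ℕ))).Nonempty :=
    (hainf.sdiff ((Finset.range k0).finite_toSet.image s)).nonempty
  obtain ⟨j, ⟨⟨⟨k, rfl⟩, hj0⟩, hj2⟩⟩ := h1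
  have hk : k0 ≤ k := by
    by_contra hlt
    apply hj2
    refine ⟨k, ?_, rfl⟩
    have : k < k0 := not_le.mp hlt
    simpa using this
  have h2 := (hs k).2.2 k0 (Finset.mem_range.2 (by omega))
  rw [hk0] at h2
  apply h2
  have hD0 : (D (s k) : M) ≠ 0 := by exact_mod_cast (hDj (s k) ⟨k, rfl⟩).1
  have h3 : (D (s k) : M) * ∑ l, a l * y (s k) l = 0 := by
    rw [← hj0, Finset.mul_sum]
    exact Finset.sum_congr rfl fun l _ => by ring
  exact (mul_eq_zero.mp h3).resolve_left hD0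

/-- (SUBTU) -/
theorem SUBTU (hSUB : ST_SUBTK) (hDEN : ST_DEN) (hAV : ST_AV) : ST_SUBTU := by
  classical
  intro M _ _ _ S P ι _ _ L ε A φ Q y hne hS hdet hCon hε hQ hD hsz hprod
  set n := Fintype.card ι with hn
  have e : ι ≃ Fin n := Fintype.equivFin ι
  have hn1 : 1 ≤ n := Fintype.card_pos
  obtain ⟨a, ha, hae⟩ := subtuF hSUB hDEN hAV M S P n
    (fun v σ => (L v σ).submatrix e.symm e.symm) ε A φ Q (fun j i => y j (e.symm i)) hn1 hS
    (by
      intro v hv σ
      rw [Matrix.det_submatrix_equiv_self]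
      exact hdet v hv σ)
    (by
      intro v hv σ σ' h
      have := hCon v hv σ σ' h
      simp only [this])
    hε hQ
    (by
      intro ε' hε'
      filter_upwards [hD ε' hε'] with j hj
      obtain ⟨D, h1, h2, h3⟩ := hj
      exact ⟨D, h1, h2, fun i => h3 _⟩)
    (by
      filter_upwards [hsz] with j hj v hv σ i
      exact hj v hv σ _)
    (by
      filter_upwards [hprod] with j hj
      refine le_trans (le_of_eq ?_) hj
      refine Finset.prod_congr rfl fun v _ => Finset.prod_congr rfl fun σ _ => ?_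
      have h1 : ∀ i : Fin n, ((L v σ).submatrix e.symm e.symm).mulVec (fun i => y j (e.symm i)) i
          = (L v σ).mulVec (y j) (e.symm i) := by
        intro i
        simp only [Matrix.mulVec, dotProduct, Matrix.submatrix_apply]
        exact Equiv.sum_comp e.symm (fun k => L v σ (e.symm i) k * y j k)
      simp only [h1]
      exact Equiv.prod_comp e.symm (fun k => P.nv v (σ ((L v σ).mulVec (y j) k))))
  refine ⟨fun i => a (e i), fun h => ha ?_, ?_⟩
  · funext i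
    have := congrFun h (e.symm i)
    simpa using this
  · filter_upwards [hae] with j hj
    rw [← hj]
    have h1 := Equiv.sum_comp e.symm (fun k => a (e k) * y j k)
    simp only [Equiv.apply_symm_apply] at h1
    exact h1.symm

end Pool.Agent.Helper70.SUBW
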