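import Pool.Agent.Helper70.SUB.SheetW

set_option autoImplicit false

namespace Pool.Agent.Helper70.SUBW

open Filter

theorem EXTW : ST_EXTW := by
  intro τ Adm x d ε hε hne hno
  have h1 : ∀ j : ℕ, ∃ s, Adm (1 / ((j : ℝ) + 1)) s ∧
      (2 + ε) * Real.log |(d s : ℝ)| + (j : ℝ) < Real.log |(x s : ℝ)| := by
    intro j
    by_contra hcon
    apply hno
    refine ⟨1 / ((j : ℝ) + 1), by positivity, (j : ℝ), fun s hs => ?_⟩
    by_contra h
    exact hcon ⟨s, hs, not_le.mp h⟩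
  choose s hs1 hs2 using h1
  have key : ∀ j : ℕ, (j : ℝ) ≤ |(x (s j) : ℝ)| ∧ 1 ≤ |(x (s j) : ℝ)| ∧
      |(d (s j) : ℝ)| ≤ |(x (s j) : ℝ)| ^ (1 / (2 + ε)) := by
    intro j
    have hfj := hs2 j
    have hd1 : 1 ≤ |(d (s j) : ℝ)| := by
      rw [← Int.cast_abs]
      have : 1 ≤ |d (s j)| := Int.one_le_abs (hne _ _ (hs1 j))
      exact_mod_cast this
    have hlog : 0 ≤ Real.log |(d (s j) : ℝ)| := Real.log_nonneg hd1
    have hj0 : (0 : ℝ) ≤ j := Nat.cast_nonneg j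
    have hjl : (j : ℝ) < Real.log |(x (s j) : ℝ)| := by
      have : 0 ≤ (2 + ε) * Real.log |(d (s j) : ℝ)| := mul_nonneg (by linarith) hlog
      linarith
    have hx0 : (0 : ℝ) < |(x (s j) : ℝ)| := by
      rcases (abs_nonneg (x (s j) : ℝ)).lt_or_eq with h | h
      · exact h
      · rw [← h, Real.log_zero] at hjl
        linarith
    have h2 := Real.add_one_le_exp (Real.log |(x (s j) : ℝ)|)
    rw [Real.exp_log hx0] at h2
    refine ⟨by linarith, by linarith, ?_⟩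
    have h3 : Real.log |(d (s j) : ℝ)| ≤ Real.log |(x (s j) : ℝ)| * (1 / (2 + ε)) := by
      rw [mul_one_div, le_div_iff₀ (by linarith)]
      nlinarith
    rw [Real.rpow_def_of_pos hx0]
    calc |(d (s j) : ℝ)| = Real.exp (Real.log |(d (s j) : ℝ)|) :=
          (Real.exp_log (lt_of_lt_of_le one_pos hd1)).symm
      _ ≤ _ := Real.exp_le_exp.mpr h3
  have hle : ((hyperfilter ℕ : Ultrafilter ℕ) : Filter ℕ) ≤ atTop := by
    rw [← Nat.cofinite_eq_atTop]
    exact hyperfilter_le_cofinite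
  refine ⟨s, hyperfilter ℕ, ?_, fun j => ⟨hs1 j, (key j).2.1, (key j).2.2⟩, ?_⟩
  · refine Tendsto.mono_left ?_ hle
    exact tendsto_atTop_mono (fun j => (key j).1) tendsto_natCast_atTop_atTop
  · intro κ hκ
    refine hle ?_
    have h4 := tendsto_one_div_add_atTop_nhds_zero_nat (𝕜 := ℝ)
    exact (h4.eventually (gt_mem_nhds hκ)).mono fun j hj => hj.le

end Pool.Agent.Helper70.SUBW
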