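import Pool.Agent.Helper70.SUB.SheetW

set_option autoImplicit false

namespace Pool.Agent.Helper70.SUBW

open Filter Pool.Agent.Helper70.SUB Pool.Agent.Helper77.SUBK

theorem PFE (hPFX : ST_PFX) : ST_PFE := by
  intro M _ _ S φ hS
  obtain ⟨P⟩ := hPFX M S hS
  refine ⟨{ nv := fun v x => match v with
              | none => ‖φ x‖
              | some p => P.nv (some p) x
            emb := φ
            inf := fun _ => rfl
            nn := fun v x => match v with
              | none => norm_nonneg _
              | some p => P.nn (some p) x
            nz := fun v => match v with
              | none => by simp
              | some p => P.nz (some p)
            pos := fun v hv x hx => match v, hv with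
              | none, _ => norm_pos_iff.mpr ((map_ne_zero φ).mpr hx)
              | some p, hv => P.pos (some p) hv x hx
            mul := fun v hv x y => match v, hv with
              | none, _ => by simp
              | some p, hv => P.mul (some p) hv x y
            add := fun v hv x y => match v, hv with
              | none, _ => by
                show ‖φ (x + y)‖ ≤ ‖φ x‖ + ‖φ y‖
                rw [map_add]
                exact norm_add_le _ _
              | some p, hv => P.add (some p) hv x y
            ult := fun p hp x y => P.ult p hp x y
            ext := fun v hv q => match v, hv with
              | none, _ => by
                show ‖φ (q : M)‖ = |(q : ℝ)|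
                rw [map_ratCast, ← Complex.ofReal_ratCast, Complex.norm_real, Real.norm_eq_abs]
              | some p, hv => P.ext (some p) hv q }, fun _ => rfl⟩

end Pool.Agent.Helper70.SUBW
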