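import Pool.Agent.Helper77.SUBK.Asm
import Pool.Agent.Helper70.SUBW.EXTW
import Pool.Agent.Helper70.SUBW.PFE
import Pool.Agent.Helper94.SUBW.SLW
import Pool.Agent.Helper97.SUBW.SPW
import Pool.Agent.Helper70.SUBW.SUBTU
import Pool.Agent.Helper8.SUBW.CSTW
import Pool.Agent.Helper26.SUBW.RELW
import Pool.Agent.Helper8.SUBW.MODW
import Pool.Agent.Helper93.SUBW.HBW
import Pool.Agent.Helper99.SUBW.DOMW
import Pool.Agent.Helper96.SUBW.MONW
import Pool.Agent.Helper47.SUBW.SLL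
import Pool.Agent.Helper78.SUBW.LAUW
import Pool.Agent.Helper53.SUBW.DRVW
import Pool.Agent.Helper53.SUBW.NUMW
import Pool.Agent.Helper66.SUBW.COREW
import Pool.Agent.Helper53.SUBW.MAINW
import Pool.Agent.Helper47.SUBW.SUBYW
import Pool.Agent.Helper72.SUBW.T1W
import Pool.Agent.Helper47.SUBW.T1BW
import Pool.Agent.Helper2.SUBW.T1CW
import Pool.Agent.Helper2.SUBW.FINW

/-! Assembly of project SUBW: sums of S-units with slowly growing coefficients. -/

set_option autoImplicit false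

namespace Pool.Agent.Helper70.SUBW

open Pool.Agent.Helper70.SUB Pool.Agent.Helper70.SUBL Pool.Agent.Helper77.SUBK

theorem w_slw : ST_SLW := Pool.Agent.Helper94.SUBW.SLW
theorem w_spw : ST_SPW := Pool.Agent.Helper97.SUBW.st_SPW w_slw k_prk k_svb
theorem w_pfe : ST_PFE := PFE k_pfx
theorem w_subtu : ST_SUBTU := SUBTU k_subt k_den a_av
theorem w_cst : ST_CSTW := Pool.Agent.Helper8.SUBW.CSTW w_subtu w_slw k_prk
theorem w_rel : ST_RELW := Pool.Agent.Helper26.SUBW.RELW w_cst w_slw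
theorem w_u2 : ST_U2W := Pool.Agent.Helper26.SUBW.U2W w_cst w_rel w_slw
theorem w_mod : ST_MODW := Pool.Agent.Helper8.SUBW.MODW w_subtu w_slw k_prk
theorem w_hb : ST_HBW := Pool.Agent.Helper93.SUBW.HBW w_mod w_slw
theorem w_dom : ST_DOMW := Pool.Agent.Helper99.SUBW.DOMW w_mod w_slw w_spw
theorem w_mon : ST_MONW := Pool.Agent.Helper96.SUBW.MONW w_slw w_spw
theorem w_sll : ST_SLL := Pool.Agent.Helper47.SUBW.SLL w_slw
theorem w_lau : ST_LAUW := Pool.Agent.Helper78.SUBW.LAUW w_u2 w_slw w_spw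
theorem w_drv : ST_DRVW := Pool.Agent.Helper53.SUBW.DRVW k_laub w_slw w_lau
theorem w_num : ST_NUMW := Pool.Agent.Helper53.SUBW.NUMW a_av k_svb k_prk w_slw
theorem w_core : ST_COREW :=
  Pool.Agent.Helper66.SUBW.COREW a_av w_slw w_sll k_lau1 w_lau w_drv w_num
theorem w_main : ST_MAINW :=
  Pool.Agent.Helper53.SUBW.MAINW w_slw k_laub w_hb w_mon w_core
theorem w_suby : ST_SUBYW :=
  Pool.Agent.Helper47.SUBW.SUBYW w_subtu w_slw w_spw k_prk k_svb
theorem w_t1 : ST_T1W := Pool.Agent.Helper72.SUBW.T1W EXTW w_slw w_main k_pfx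
theorem w_t1b : ST_T1BW :=
  Pool.Agent.Helper47.SUBW.T1BW EXTW w_pfe w_slw w_spw w_dom k_expk w_suby w_main
theorem w_t1c : ST_T1CW :=
  Pool.Agent.Helper2.SUBW.T1CW EXTW w_pfe w_slw w_spw w_dom k_expk w_suby w_main
/-- Hall's inequality for sums of boundedly many S-units with slowly growing coefficients -/
theorem w_fin : ST_FINW := Pool.Agent.Helper2.SUBW.FINW w_t1 w_t1b w_t1c k_svb

end Pool.Agent.Helper70.SUBW
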